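import Mathlib
import Pool.Agent.R504.StirGen

set_option autoImplicit false

/-!
# The stable class counts `μ_k` are not monotone (MP_6194d2_nt)

`μ_69 = 34` and `μ_71 = 32`.

Proof. For odd `k`, `k! S(j,k) = F(j) - G(j)`, where `F(j) = ∑_{i odd} C(k,i) i^j` and `2^j ∣ G(j)`. Let
`h = 2^m` and let `a_r = ∑_{i odd} C(k,i) i^n (i^h - 1)^r`, so `F(n + h y) = ∑_r C(y,r) a_r`. If
`ν_2(a_r) > ν_2(a_0) = v` for all `r ≥ 1`, then `ν_2(F(n + h y)) = v` for all `y`. If
`ν_2(a_0) ≥ w = ν_2(a_1)` and `ν_2(a_r) > w + log_2 r` for `r ≥ 2`, then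
`F(n + h(y + 2^s)) - F(n + h y) = 2^(w + s) (odd)` for all `y` and `s`, so at every level exactly one class
above `n` is not constant. For `k = 69`, `m = 7` and for `k = 71`, `m = 8` one of the two cases occurs
for every `n`; the second one 34 and 32 times. (`a_r` is divisible by `2^((m+2)r)`, so for each `n` only
finitely many conditions have to be checked.)
-/

namespace Pool.Agent.Results.MP_6194d2_nt.NotMonotone

open Pool.Agent.R504.StirGen

/-- `[n]_t = {j : j ≥ max(n, t), j ≡ n (mod t)}` -/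
def cls (n t : ℕ) : Set ℕ := {j | max n t ≤ j ∧ j % t = n % t}

/-- `N_{k,m}`: the `n` with `k ≤ n < k + 2^m` such that `j ↦ ν_2(S(j,k))` is not constant on
`[n]_{2^m}` -/
def NN (k m : ℕ) : Set ℕ := {n | k ≤ n ∧ n < k + 2 ^ m ∧
  ¬ ∃ v, ∀ j ∈ cls n (2 ^ m), padicValNat 2 (Nat.stirlingSecond j k) = v}

/-- `μ_k` exists and is equal to `μ` -/
def HasMu (k μ : ℕ) : Prop := ∃ M, ∀ m, M ≤ m → (NN k m).ncard = μ

/-! ### the connection with `F` -/

/-- the binomial coefficients -/
def bin (k t : ℕ) : ℕ := k.choose (2 * t + 1)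

lemma sum_split (K : ℕ) (f : ℕ → ℤ) : ∑ i ∈ Finset.range (2 * K), f i =
    ∑ t ∈ Finset.range K, f (2 * t) + ∑ t ∈ Finset.range K, f (2 * t + 1) := by
  induction K with
  | zero => simp
  | succ K ih =>
    rw [show 2 * (K + 1) = 2 * K + 1 + 1 by ring, Finset.sum_range_succ, Finset.sum_range_succ, ih,
      Finset.sum_range_succ, Finset.sum_range_succ]
    ring

lemma stirling_F (K k j : ℕ) (hk : k + 1 = 2 * K) : ∃ G : ℕ, 2 ^ j ∣ G ∧
    k.factorial * Nat.stirlingSecond j k + G = F K (bin k) j := by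
  have h1 := stirling_eq j k
  unfold A at h1
  rw [hk, sum_split] at h1
  refine ⟨∑ t ∈ Finset.range K, k.choose (2 * t) * (2 * t) ^ j, ?_, ?_⟩
  · apply Finset.dvd_sum
    intro t _
    rw [mul_pow]
    exact ⟨k.choose (2 * t) * t ^ j, by ring⟩
  · have hodd : ∀ t : ℕ, (-1 : ℤ) ^ (k + 2 * t) = -1 := fun t => by
      apply Odd.neg_one_pow
      rw [Nat.odd_iff]; omega
    have heven : ∀ t : ℕ, (-1 : ℤ) ^ (k + (2 * t + 1)) = 1 := fun t => by
      apply Even.neg_one_pow
      rw [Nat.even_iff]; omega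
    simp only [hodd, heven] at h1
    unfold F bin
    have h2 : ((k.factorial * Nat.stirlingSecond j k + ∑ t ∈ Finset.range K, k.choose (2 * t) *
        (2 * t) ^ j : ℕ) : ℤ) = ((∑ t ∈ Finset.range K, k.choose (2 * t + 1) *
        (2 * t + 1) ^ j : ℕ) : ℤ) := by
      push_cast
      rw [h1, ← Finset.sum_add_distrib, ← Finset.sum_add_distrib]
      apply Finset.sum_congr rfl
      intro t _
      push_cast
      ring
    exact_mod_cast h2

lemma val_of_ex (K k j v : ℕ) (hk : k + 1 = 2 * K) (hv : v < j) (h : Ex (F K (bin k) j) v) :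
    padicValNat 2 k.factorial + padicValNat 2 (Nat.stirlingSecond j k) = v := by
  obtain ⟨G, hG, hF⟩ := stirling_F K k j hk
  obtain ⟨h1, h2⟩ := h
  rw [← hF] at h1 h2
  have h3 : 2 ^ (v + 1) ∣ G := (pow_dvd_pow 2 (by omega)).trans hG
  have h4 : 2 ^ v ∣ G := (pow_dvd_pow 2 (by omega)).trans h3
  have h5 : 2 ^ v ∣ k.factorial * Nat.stirlingSecond j k := (Nat.dvd_add_left h4).1 h1
  have h6 : ¬ 2 ^ (v + 1) ∣ k.factorial * Nat.stirlingSecond j k := fun h =>
    h2 (dvd_add h h3)
  have h7 : k.factorial * Nat.stirlingSecond j k ≠ 0 := by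
    intro h
    rw [h] at h6
    exact h6 (dvd_zero _)
  have := Fact.mk Nat.prime_two
  have h8 : padicValNat 2 (k.factorial * Nat.stirlingSecond j k) = v := by
    apply le_antisymm
    · by_contra hlt
      push Not at hlt
      exact h6 ((padicValNat_dvd_iff_le h7).2 hlt)
    · exact (padicValNat_dvd_iff_le h7).1 h5
  rw [padicValNat.mul (by exact fun h => h7 (by rw [h, zero_mul]))
    (by exact fun h => h7 (by rw [h, mul_zero]))] at h8
  exact h8

/-! ### counting -/

theorem count (K k m0 V : ℕ) (isB : ℕ → Bool) (hk : k + 1 = 2 * K) (hV : V + 1 < 2 ^ m0)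
    (hA : ∀ n < 2 ^ m0, isB n = false → ∃ v ≤ V, CondA K (bin k) m0 n v)
    (hB : ∀ n < 2 ^ m0, isB n = true → ∃ w ≤ V, CondB K (bin k) m0 n w) :
    HasMu k ((Finset.range (2 ^ m0)).filter (fun n => isB n = true)).card := by
  refine ⟨m0, fun m hm => ?_⟩
  obtain ⟨s, rfl⟩ := Nat.exists_eq_add_of_le hm
  have hVs : V + s + 1 < 2 ^ (m0 + s) := by
    clear hm
    induction s with
    | zero => simpa using hV
    | succ s ih =>
      rw [show m0 + (s + 1) = m0 + s + 1 by ring, pow_succ]
      omega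
  -- the zero residues
  have hz : ∀ n, ∃ z, n < 2 ^ m0 → isB n = true → z < 2 ^ s ∧ ∃ w ≤ V,
      Star (fun y => F K (bin k) (n + 2 ^ m0 * y)) w ∧
      (∀ q, 2 ^ (w + s) ∣ F K (bin k) (n + 2 ^ m0 * (z + 2 ^ s * q))) ∧
      ∀ y < 2 ^ s, y ≠ z → ∃ v, w ≤ v ∧ v < w + s ∧
        ∀ q, Ex (F K (bin k) (n + 2 ^ m0 * (y + 2 ^ s * q))) v := by
    intro n
    by_cases h : n < 2 ^ m0 ∧ isB n = true
    · obtain ⟨w, hw, hc⟩ := hB n h.1 h.2
      have hst := condB_star hc
      obtain ⟨z, hz, h1, h2⟩ := star_zero hst s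
      exact ⟨z, fun _ _ => ⟨hz, w, hw, hst, h1, h2⟩⟩
    · exact ⟨0, fun h1 h2 => absurd ⟨h1, h2⟩ h⟩
  choose z hz using hz
  set B := (Finset.range (2 ^ m0)).filter (fun n => isB n = true) with hBdef
  set ρ : ℕ → ℕ := fun n => n + 2 ^ m0 * z n with hρ
  set Im := B.image ρ with hIm
  have hpos0 : 0 < 2 ^ m0 := by positivity
  have hposs : 0 < 2 ^ s := by positivity
  have hIm_lt : ∀ r ∈ Im, r < 2 ^ (m0 + s) := by
    intro r hr
    rw [hIm, Finset.mem_image] at hr
    obtain ⟨n, hn, rfl⟩ := hr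
    rw [hBdef, Finset.mem_filter, Finset.mem_range] at hn
    have h1 := (hz n hn.1 hn.2).1
    rw [hρ, pow_add]
    simp only
    calc n + 2 ^ m0 * z n < 2 ^ m0 + 2 ^ m0 * z n := by omega
      _ = 2 ^ m0 * (z n + 1) := by ring
      _ ≤ 2 ^ m0 * 2 ^ s := Nat.mul_le_mul_left _ h1
  have hIm_card : Im.card = B.card := by
    apply Finset.card_image_of_injOn
    intro a ha b hb hab
    rw [Finset.mem_coe, hBdef, Finset.mem_filter, Finset.mem_range] at ha hb
    have h1 := congrArg (· % 2 ^ m0) hab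
    simp only [hρ, Nat.add_mul_mod_self_left] at h1
    rwa [Nat.mod_eq_of_lt ha.1, Nat.mod_eq_of_lt hb.1] at h1
  -- characterization
  have hchar : ∀ n, (¬ ∃ v, ∀ j ∈ cls n (2 ^ (m0 + s)),
      padicValNat 2 (Nat.stirlingSecond j k) = v) ↔ n % 2 ^ (m0 + s) ∈ Im := by
    intro n
    constructor
    · intro hnc
      by_contra hni
      apply hnc
      set r := n % 2 ^ (m0 + s) with hr
      have hrlt : r < 2 ^ (m0 + s) := Nat.mod_lt _ (by positivity)
      set n0 := r % 2 ^ m0 with hn0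
      set y := r / 2 ^ m0 with hy
      have hn0lt : n0 < 2 ^ m0 := Nat.mod_lt _ hpos0
      have hrn : n0 + 2 ^ m0 * y = r := Nat.mod_add_div r (2 ^ m0)
      have hylt : y < 2 ^ s := by
        rw [hy, Nat.div_lt_iff_lt_mul hpos0, ← pow_add, add_comm s]
        exact hrlt
      have hcl : ∃ v ≤ V + s, ∀ q, Ex (F K (bin k) (n0 + 2 ^ m0 * (y + 2 ^ s * q))) v := by
        cases hb : isB n0 with
        | false =>
          obtain ⟨v, hv, hc⟩ := hA n0 hn0lt hb
          exact ⟨v, by omega, fun q => condA_ex hc _⟩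
        | true =>
          obtain ⟨hzlt, w, hw, _, _, h2⟩ := hz n0 hn0lt hb
          have hyz : y ≠ z n0 := by
            intro h
            apply hni
            rw [hIm, Finset.mem_image]
            refine ⟨n0, ?_, ?_⟩
            · rw [hBdef, Finset.mem_filter, Finset.mem_range]
              exact ⟨hn0lt, hb⟩
            · rw [hρ]
              simp only
              rw [← h, hrn]
          obtain ⟨v, _, hv, h3⟩ := h2 y hylt hyz
          exact ⟨v, by omega, h3⟩
      obtain ⟨v, hv, hq⟩ := hcl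
      refine ⟨v - padicValNat 2 k.factorial, fun j hj => ?_⟩
      obtain ⟨hj1, hj2⟩ := hj
      have hj3 : j = n0 + 2 ^ m0 * (y + 2 ^ s * (j / 2 ^ (m0 + s))) := by
        have h1 := Nat.mod_add_div j (2 ^ (m0 + s))
        rw [hj2, ← hr, ← hrn] at h1
        conv_lhs => rw [← h1]
        rw [pow_add]
        ring
      have h2 := hq (j / 2 ^ (m0 + s))
      rw [← hj3] at h2
      have h3 := val_of_ex K k j v hk (by
        have := le_trans (le_max_right n (2 ^ (m0 + s))) hj1
        omega) h2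
      omega
    · intro hi ⟨v, hv⟩
      rw [hIm, Finset.mem_image] at hi
      obtain ⟨n0, hn0, hρn⟩ := hi
      rw [hBdef, Finset.mem_filter, Finset.mem_range] at hn0
      obtain ⟨hzlt, w, hw, hst, h1, _⟩ := hz n0 hn0.1 hn0.2
      obtain ⟨q, q', v1, v2, hq, hq', hlt, hle, hE, hE'⟩ :=
        star_nonconst hst s (z n0) (n + 2 ^ (m0 + s)) h1
      have hmem : ∀ q, n + 2 ^ (m0 + s) ≤ q → n0 + 2 ^ m0 * (z n0 + 2 ^ s * q) ∈
          cls n (2 ^ (m0 + s)) ∧ 2 ^ (m0 + s) ≤ n0 + 2 ^ m0 * (z n0 + 2 ^ s * q) := by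
        intro q hq
        have e1 : n0 + 2 ^ m0 * (z n0 + 2 ^ s * q) = n0 + 2 ^ m0 * z n0 + 2 ^ (m0 + s) * q := by
          rw [pow_add]; ring
        have e2 : q ≤ 2 ^ (m0 + s) * q := Nat.le_mul_of_pos_left _ (by positivity)
        rw [e1]
        refine ⟨⟨?_, ?_⟩, by omega⟩
        · apply max_le <;> omega
        · rw [Nat.add_mul_mod_self_left]
          have e3 : n0 + 2 ^ m0 * z n0 = n % 2 ^ (m0 + s) := hρn
          rw [e3, Nat.mod_mod]
      obtain ⟨m1, m1'⟩ := hmem q hq
      obtain ⟨m2, m2'⟩ := hmem q' hq'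
      have v1' := val_of_ex K k _ v1 hk (by omega) hE
      have v2' := val_of_ex K k _ v2 hk (by omega) hE'
      rw [hv _ m1] at v1'
      rw [hv _ m2] at v2'
      omega
  -- counting
  have hset : NN k (m0 + s) = ((Finset.Ico k (k + 2 ^ (m0 + s))).filter
      (fun n => n % 2 ^ (m0 + s) ∈ Im) : Finset ℕ) := by
    ext n
    rw [Finset.mem_coe, Finset.mem_filter, Finset.mem_Ico, NN, Set.mem_ofPred_eq, hchar, and_assoc]
  rw [hset, Set.ncard_coe_finset, Nat.filter_Ico_card_eq_of_periodic k (2 ^ (m0 + s))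
    (fun n => n % 2 ^ (m0 + s) ∈ Im) (fun n => by simp), Nat.count_eq_card_filter_range,
    ← hIm_card]
  congr 1
  ext r
  rw [Finset.mem_filter, Finset.mem_range]
  constructor
  · rintro ⟨h1, h2⟩
    rwa [Nat.mod_eq_of_lt h1] at h2
  · intro h
    have h1 := hIm_lt r h
    exact ⟨h1, by rwa [Nat.mod_eq_of_lt h1]⟩

/-! ### the finite check -/

/-- the check for one residue; the code is `2 v` in the first case and `2 w + 1` in the second -/
def chk (K : ℕ) (cs : List ℕ) (m R n code : ℕ) : Bool :=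
  if code % 2 = 0 then
    decide (a K (fun t => cs.getD t 0) m n 0 % 2 ^ (code / 2 + 1) = 2 ^ (code / 2)) &&
    (List.range (R - 1)).all (fun r => decide (a K (fun t => cs.getD t 0) m n (r + 1) %
      2 ^ (code / 2 + 1) = 0)) && decide (code / 2 + 1 ≤ (m + 2) * R)
  else
    decide (a K (fun t => cs.getD t 0) m n 0 % 2 ^ (code / 2) = 0) &&
    decide (a K (fun t => cs.getD t 0) m n 1 % 2 ^ (code / 2 + 1) = 2 ^ (code / 2)) &&
    (List.range (R - 2)).all (fun r => decide (a K (fun t => cs.getD t 0) m n (r + 2) %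
      2 ^ (code / 2 + 1 + Nat.log 2 (r + 2)) = 0)) && decide (code / 2 ≤ (m + 1) * R)

lemma ex_of_mod (x v : ℕ) (h : x % 2 ^ (v + 1) = 2 ^ v) : Ex x v := by
  have h1 := Nat.mod_add_div x (2 ^ (v + 1))
  rw [h] at h1
  constructor
  · rw [← h1, pow_succ]
    exact ⟨1 + 2 * (x / (2 ^ v * 2)), by ring⟩
  · intro h2
    rw [Nat.dvd_iff_mod_eq_zero] at h2
    rw [h2] at h
    have : 0 < 2 ^ v := by positivity
    omega

lemma a_congr (K k m n r : ℕ) (cs : List ℕ) (hcs : ∀ t < K, cs.getD t 0 = bin k t) :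
    a K (fun t => cs.getD t 0) m n r = a K (bin k) m n r := by
  unfold a
  apply Finset.sum_congr rfl
  intro t ht
  rw [Finset.mem_range] at ht
  simp only [hcs t ht]

lemma chk_A (K k m R n code : ℕ) (cs : List ℕ) (hcs : ∀ t < K, cs.getD t 0 = bin k t) (hm : 1 ≤ m)
    (h : chk K cs m R n code = true) (he : code % 2 = 0) : CondA K (bin k) m n (code / 2) := by
  unfold chk at h
  rw [if_pos he] at h
  simp only [Bool.and_eq_true, decide_eq_true_eq, List.all_eq_true, List.mem_range,
    a_congr K k m n _ cs hcs] at h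
  obtain ⟨⟨h1, h2⟩, h3⟩ := h
  refine ⟨ex_of_mod _ _ h1, fun r hr => ?_⟩
  by_cases hrR : r < R
  · have := h2 (r - 1) (by omega)
    rw [Nat.sub_add_cancel hr] at this
    exact Nat.dvd_of_mod_eq_zero this
  · refine (pow_dvd_pow 2 ?_).trans (a_dvd K (bin k) m n r hm)
    calc code / 2 + 1 ≤ (m + 2) * R := h3
      _ ≤ (m + 2) * r := Nat.mul_le_mul_left _ (by omega)

lemma chk_B (K k m R n code : ℕ) (cs : List ℕ) (hcs : ∀ t < K, cs.getD t 0 = bin k t) (hm : 1 ≤ m)
    (h : chk K cs m R n code = true) (he : ¬ code % 2 = 0) : CondB K (bin k) m n (code / 2) := by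
  unfold chk at h
  rw [if_neg he] at h
  simp only [Bool.and_eq_true, decide_eq_true_eq, List.all_eq_true, List.mem_range,
    a_congr K k m n _ cs hcs] at h
  obtain ⟨⟨⟨h0, h1⟩, h2⟩, h3⟩ := h
  refine ⟨Nat.dvd_of_mod_eq_zero h0, ex_of_mod _ _ h1, fun r hr => ?_⟩
  by_cases hrR : r < R
  · have := h2 (r - 2) (by omega)
    rw [Nat.sub_add_cancel hr] at this
    exact Nat.dvd_of_mod_eq_zero this
  · refine (pow_dvd_pow 2 ?_).trans (a_dvd K (bin k) m n r hm)
    have hlog : Nat.log 2 r < r := Nat.log_lt_self 2 (by omega)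
    have h4 : (m + 1) * R ≤ (m + 1) * r := Nat.mul_le_mul_left _ (by omega)
    have h5 : (m + 2) * r = (m + 1) * r + r := by ring
    omega

def b69 : List ℕ :=
  [69, 52394, 11238513, 1078897248, 56672074888, 1823810410032, 38650751381832, 566877686933536,
   5964720367660956, 46252743903616536, 269807672771096460, 1202936975833188960,
   4150132566624501912, 11185257572725865552, 23720460024918645912, 39789158751476438304,
   52976853413424121454, 56093138908331422716, 47249626017378270486, 31627280033224861216,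
   16777886359088798328, 7023301266595310928, 2305629203680278840, 588671286046028640,
   115631859759041340, 17231414395464984, 1913212193400684, 154603005527328, 8815083648488,
   340032449328, 8361453672, 119877472, 864501, 2346, 1]

def b71 : List ℕ :=
  [71, 57155, 13019909, 1329890705, 74473879480, 2560547383576, 58104729088840, 914734449370024,
   10358022441395860, 86680293062207460, 547324136192795676, 2650087220696342700,
   9964327949818248552, 29381992672540989320, 68461490315822108120, 126764178842844806648,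
   187265264199657100730, 221256270138418389602, 209296471752557936110, 158455223553556008310,
   95846086442150951368, 46171702771135840360, 17629195603524593592, 5300174441392685400,
   1243918491347262900, 225368761961739396, 31074067324187580, 3201570572795084, 240719591939480,
   12802736917880, 461738052776, 10639125640, 143218999, 971635, 2485, 1]

def c69 : List ℕ :=
  [136, 134, 134, 136, 138, 132, 132, 136, 134, 132, 132, 134, 138, 132, 132, 138, 134, 132, 132,
   134, 136, 132, 132, 136, 134, 132, 132, 134, 140, 132, 132, 140, 134, 132, 132, 134, 136, 137,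
   137, 141, 139, 137, 137, 139, 143, 137, 137, 143, 139, 137, 137, 139, 141, 137, 137, 141, 139,
   137, 137, 139, 147, 137, 137, 147, 139, 137, 137, 139, 141, 132, 132, 136, 134, 132, 132, 134,
   138, 132, 132, 138, 134, 132, 132, 134, 136, 132, 132, 136, 134, 132, 132, 134, 140, 132, 132,
   140, 134, 132, 132, 134, 136, 134, 134, 138, 136, 134, 134, 136, 140, 134, 134, 140, 136, 134,
   134, 136, 138, 134, 134, 138, 136, 134, 134, 136, 147, 134, 134, 147]

def c71 : List ℕ :=
  [140, 138, 142, 136, 140, 140, 144, 134, 138, 136, 140, 134, 138, 142, 146, 134, 138, 136, 140,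
   134, 138, 138, 142, 134, 138, 136, 140, 134, 138, 140, 144, 134, 138, 136, 140, 134, 138, 138,
   142, 141, 145, 143, 147, 141, 145, 153, 158, 141, 145, 143, 147, 141, 145, 145, 149, 141, 145,
   143, 147, 141, 145, 147, 151, 141, 145, 143, 147, 141, 145, 145, 149, 134, 138, 136, 140, 134,
   138, 142, 146, 134, 138, 136, 140, 134, 138, 138, 142, 134, 138, 136, 140, 134, 138, 140, 144,
   134, 138, 136, 140, 134, 138, 138, 142, 136, 140, 138, 142, 136, 140, 146, 150, 136, 140, 138,
   142, 136, 140, 140, 144, 136, 140, 138, 142, 136, 140, 142, 146, 136, 140, 138, 142, 136, 140,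
   140, 144, 134, 138, 136, 140, 134, 138, 142, 146, 134, 138, 136, 140, 134, 138, 138, 142, 134,
   138, 136, 140, 134, 138, 140, 144, 134, 138, 136, 140, 134, 138, 138, 142, 138, 142, 140, 144,
   138, 142, 153, 154, 138, 142, 140, 144, 138, 142, 142, 146, 138, 142, 140, 144, 138, 142, 144,
   148, 138, 142, 140, 144, 138, 142, 142, 146, 134, 138, 136, 140, 134, 138, 142, 146, 134, 138,
   136, 140, 134, 138, 138, 142, 134, 138, 136, 140, 134, 138, 140, 144, 134, 138, 136, 140, 134,
   138, 138, 142, 136, 140, 138, 142, 136, 140, 146, 150, 136, 140, 138, 142, 136, 140, 140, 144,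
   136, 140, 138, 142, 136, 140, 142, 146, 136]

lemma bin_eq (k t : ℕ) (h : 2 * t + 1 ≤ k) :
    bin k t = k.factorial / ((2 * t + 1).factorial * (k - (2 * t + 1)).factorial) :=
  Nat.choose_eq_factorial_div_factorial h

lemma b69_eq : ∀ t < 35, b69.getD t 0 = bin 69 t := by
  have h : ∀ t < 35, b69.getD t 0 =
      Nat.factorial 69 / ((2 * t + 1).factorial * (69 - (2 * t + 1)).factorial) := by
    decide +kernel
  intro t ht
  rw [h t ht, bin_eq 69 t (by omega)]

lemma b71_eq : ∀ t < 36, b71.getD t 0 = bin 71 t := by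
  have h : ∀ t < 36, b71.getD t 0 =
      Nat.factorial 71 / ((2 * t + 1).factorial * (71 - (2 * t + 1)).factorial) := by
    decide +kernel
  intro t ht
  rw [h t ht, bin_eq 71 t (by omega)]

lemma chk69 : ∀ n < 2 ^ 7, chk 35 b69 7 10 n (c69.getD n 0) = true := by decide +kernel

lemma chk71 : ∀ n < 2 ^ 8, chk 36 b71 8 9 n (c71.getD n 0) = true := by decide +kernel

theorem mu69 : HasMu 69 34 := by
  have h1 : ∀ n < 2 ^ 7, c69.getD n 0 / 2 ≤ 100 := by decide +kernel
  have h := count 35 69 7 100 (fun n => decide (c69.getD n 0 % 2 = 1)) (by norm_num) (by norm_num)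
    (fun n hn hb => ⟨c69.getD n 0 / 2, h1 n hn, chk_A 35 69 7 10 n _ b69 b69_eq (by norm_num)
      (chk69 n hn) (by have := of_decide_eq_false hb; omega)⟩)
    (fun n hn hb => ⟨c69.getD n 0 / 2, h1 n hn, chk_B 35 69 7 10 n _ b69 b69_eq (by norm_num)
      (chk69 n hn) (by have := of_decide_eq_true hb; omega)⟩)
  have h2 : ((Finset.range (2 ^ 7)).filter (fun n => decide (c69.getD n 0 % 2 = 1) = true)).card =
      34 := by decide +kernel
  rwa [h2] at h

theorem mu71 : HasMu 71 32 := by
  have h1 : ∀ n < 2 ^ 8, c71.getD n 0 / 2 ≤ 100 := by decide +kernel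
  have h := count 36 71 8 100 (fun n => decide (c71.getD n 0 % 2 = 1)) (by norm_num) (by norm_num)
    (fun n hn hb => ⟨c71.getD n 0 / 2, h1 n hn, chk_A 36 71 8 9 n _ b71 b71_eq (by norm_num)
      (chk71 n hn) (by have := of_decide_eq_false hb; omega)⟩)
    (fun n hn hb => ⟨c71.getD n 0 / 2, h1 n hn, chk_B 36 71 8 9 n _ b71 b71_eq (by norm_num)
      (chk71 n hn) (by have := of_decide_eq_true hb; omega)⟩)
  have h2 : ((Finset.range (2 ^ 8)).filter (fun n => decide (c71.getD n 0 % 2 = 1) = true)).card =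
      32 := by decide +kernel
  rwa [h2] at h

theorem result : HasMu 69 34 ∧ HasMu 71 32 ∧
    ¬ ∀ k k' μ μ', 1 ≤ k → k < k' → HasMu k μ → HasMu k' μ' → μ ≤ μ' := by
  refine ⟨mu69, mu71, fun h => ?_⟩
  have := h 69 71 34 32 (by norm_num) (by norm_num) mu69 mu71
  omega

end Pool.Agent.Results.MP_6194d2_nt.NotMonotone
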